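import Pool.Agent.N708.MX.Stm3
import Pool.Agent.W440.RC.PTA

/-!
# Project MX: spectral gap of an infinite Kazhdan subgroup in the regular representation
-/

set_option autoImplicit false

open scoped Pointwise symmDiff

noncomputable section

namespace Pool.Agent.N300.MX

open Pool.Agent.N708.MX

variable {G : Type} [Group G]

theorem lam_apply (g : G) (f : Ell G) (x : G) : (lam g f : Ell G) x = f (g⁻¹ * x) := rfl

theorem lam_mul (g h : G) : lam (g * h) = lam g * lam h := by
  ext f x
  change f ((g * h)⁻¹ * x) = f (h⁻¹ * (g⁻¹ * x))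
  rw [mul_inv_rev, mul_assoc]

theorem lam_one : lam (1 : G) = 1 := by
  ext f x
  change f (1⁻¹ * x) = f x
  rw [inv_one, one_mul]

theorem lam_inner (g : G) (f f' : Ell G) : inner ℂ (lam g f) (lam g f') = inner ℂ f f' :=
  (lamI g).inner_map_map f f'

theorem adj_lam (g : G) : star (lam g) = lam g⁻¹ := by
  rw [ContinuousLinearMap.star_eq_adjoint]
  symm
  rw [ContinuousLinearMap.eq_adjoint_iff]
  intro x y
  have h1 : lam g (lam g⁻¹ x) = x := by
    change (lam g * lam g⁻¹) x = x
    rw [← lam_mul, mul_inv_cancel, lam_one]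
    rfl
  rw [← lam_inner g (lam g⁻¹ x) y, h1]

/-- the unitary representation -/
def lamU : G →* unitary (Ell G →L[ℂ] Ell G) where
  toFun g := ⟨lam g, by
    rw [Unitary.mem_iff, adj_lam, ← lam_mul, ← lam_mul, inv_mul_cancel, mul_inv_cancel, lam_one]
    exact ⟨rfl, rfl⟩⟩
  map_one' := Subtype.ext lam_one
  map_mul' g h := Subtype.ext (lam_mul g h)

theorem norm_sq_eq (f : Ell G) : ‖f‖ ^ 2 = ∑' x, ‖f x‖ ^ 2 := by
  have h := lp.norm_rpow_eq_tsum (p := 2) (by norm_num) f
  have e : (2 : ENNReal).toReal = ((2 : ℕ) : ℝ) := by norm_num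
  rw [e] at h
  simp only [Real.rpow_natCast] at h
  exact h

theorem sq_summable (f : Ell G) : Summable fun x => ‖f x‖ ^ 2 := by
  have h := (lp.memℓp f).summable (by norm_num)
  have e : (2 : ENNReal).toReal = ((2 : ℕ) : ℝ) := by norm_num
  rw [e] at h
  simp only [Real.rpow_natCast] at h
  exact h

theorem no_inv {K : Type} [Group K] (ι : K →* G) (hi : Infinite ι.range) (v : Ell G)
    (hv : ∀ a : K, lam (ι a) v = v) : v = 0 := by
  ext x
  have h1 : Function.Injective (fun r : ι.range => (r : G)⁻¹ * x) := by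
    intro r r' h
    exact Subtype.ext (inv_injective (mul_right_cancel h))
  have h2 := (sq_summable v).comp_injective h1
  have h3 : ((fun x => ‖v x‖ ^ 2) ∘ fun r : ι.range => (r : G)⁻¹ * x) = fun _ => ‖v x‖ ^ 2 := by
    funext r
    obtain ⟨g, a, rfl⟩ := r
    change ‖v ((ι a)⁻¹ * x)‖ ^ 2 = ‖v x‖ ^ 2
    rw [← lam_apply, hv a]
  rw [h3, summable_const_iff] at h2
  exact norm_eq_zero.mp (pow_eq_zero_iff two_ne_zero |>.mp h2)

/-- the characteristic function of a finite set -/
def chi (F : Finset G) : Ell G := ⟨Set.indicator (F : Set G) 1, memℓp_gen (by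
  apply summable_of_ne_finset_zero (s := F)
  intro x hx
  rw [Set.indicator_of_notMem (by simpa using hx), norm_zero]
  exact Real.zero_rpow (by norm_num))⟩

theorem chi_apply (F : Finset G) (x : G) : (chi F : Ell G) x = Set.indicator (F : Set G) 1 x := rfl

theorem norm_sq_of (f : Ell G) (A : Set G) (hA : A.Finite) (h : ∀ x, ‖f x‖ ^ 2 = A.indicator 1 x) :
    ‖f‖ ^ 2 = A.ncard := by
  classical
  rw [norm_sq_eq, tsum_congr h, tsum_eq_sum (s := hA.toFinset) (fun x hx => by
    rw [Set.indicator_of_notMem]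
    simpa using hx), Set.ncard_eq_toFinset_card A hA]
  rw [Finset.sum_congr rfl (g := fun _ => (1 : ℝ)) (fun x hx => by
    rw [Set.indicator_of_mem (by simpa using hx)]
    rfl)]
  simp

theorem norm_chi (F : Finset G) : ‖chi F‖ ^ 2 = F.card := by
  rw [norm_sq_of (chi F) F F.finite_toSet, Set.ncard_coe_finset]
  intro x
  rw [chi_apply]
  by_cases h : x ∈ (F : Set G)
  · rw [Set.indicator_of_mem h, Set.indicator_of_mem h]
    simp
  · rw [Set.indicator_of_notMem h, Set.indicator_of_notMem h]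
    simp

theorem norm_lam_sub (F : Finset G) (s : G) :
    ‖lam s (chi F) - chi F‖ ^ 2 = ((s • (F : Set G)) ∆ (F : Set G)).ncard := by
  apply norm_sq_of
  · exact ((F.finite_toSet.smul_set).union F.finite_toSet).subset Set.symmDiff_subset_union
  intro x
  change ‖(chi F : Ell G) (s⁻¹ * x) - (chi F : Ell G) x‖ ^ 2 = _
  rw [chi_apply, chi_apply]
  have h1 : s⁻¹ * x ∈ (F : Set G) ↔ x ∈ s • (F : Set G) := by
    rw [Set.mem_smul_set_iff_inv_smul_mem, smul_eq_mul]
  by_cases h2 : x ∈ s • (F : Set G)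
  · by_cases h3 : x ∈ (F : Set G)
    · rw [Set.indicator_of_mem (h1.2 h2), Set.indicator_of_mem h3, Set.indicator_of_notMem]
      · simp
      · rw [Set.mem_symmDiff]
        tauto
    · rw [Set.indicator_of_mem (h1.2 h2), Set.indicator_of_notMem h3, Set.indicator_of_mem]
      · simp
      · rw [Set.mem_symmDiff]
        tauto
  · by_cases h3 : x ∈ (F : Set G)
    · rw [Set.indicator_of_notMem (fun h => h2 (h1.1 h)), Set.indicator_of_mem h3, Set.indicator_of_mem]
      · simp
      · rw [Set.mem_symmDiff]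
        tauto
    · rw [Set.indicator_of_notMem (fun h => h2 (h1.1 h)), Set.indicator_of_notMem h3, Set.indicator_of_notMem]
      · simp
      · rw [Set.mem_symmDiff]
        tauto

/-- REG -/
theorem t_reg : S_REG := by
  intro K G _ _ ι k γ hT hγ hi
  obtain ⟨κ, hκ, h⟩ := W440.RC.main K k γ hT hγ
  have key : ∀ v : Ell G, κ * ‖v‖ ^ 2 ≤ ∑ s, ‖lam (ι (γ (FreeGroup.of s))) v - v‖ ^ 2 :=
    h (Ell G) (lamU.comp ι) (fun v hv => no_inv ι hi v fun a => hv a)
  refine ⟨⟨κ, hκ, key⟩, fun hA => ?_⟩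
  classical
  obtain ⟨F, hF, hFS⟩ := hA (Finset.univ.image fun s => ι (γ (FreeGroup.of s))) (κ / (k + 1)) (by positivity)
  have h1 := key (chi F)
  rw [norm_chi] at h1
  have h2 : ∀ s ∈ (Finset.univ : Finset (Fin k)), ‖lam (ι (γ (FreeGroup.of s))) (chi F) - chi F‖ ^ 2
      ≤ κ / (k + 1) * F.card := by
    intro s _
    rw [norm_lam_sub]
    exact hFS _ (Finset.mem_image_of_mem _ (Finset.mem_univ s))
  have h3 := h1.trans (Finset.sum_le_sum h2)
  rw [Finset.sum_const, Finset.card_univ, Fintype.card_fin, nsmul_eq_mul] at h3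
  have h4 : (0 : ℝ) < F.card := by exact_mod_cast hF.card_pos
  have h5 : (k : ℝ) * (κ / (k + 1) * F.card) < κ * F.card := by
    have h6 : (k : ℝ) * (κ / (k + 1) * F.card) = κ * F.card * (k / (k + 1)) := by ring
    rw [h6]
    have h7 : (k : ℝ) / (k + 1) < 1 := by
      rw [div_lt_one (by positivity)]
      linarith
    have h8 : 0 < κ * F.card := by positivity
    nlinarith
  linarith

end Pool.Agent.N300.MX
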